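import Pool.Agent.Y755.FK.Stm
import Pool.Agent.TH847.LS.Quad

/-!
# Discriminants of imaginary quadratic fields
-/

set_option autoImplicit false

namespace Pool.Agent.Y797.FK

open NumberField Finset Matrix Polynomial
open scoped Classical

variable {K : Type} [Field K] [NumberField K]

/-- the quadratic equation of an algebraic integer, with the trace -/
theorem quad_eq' (h2 : Module.finrank ℚ K = 2) (α : 𝓞 K) :
    (2 * α - ((Algebra.trace ℤ (𝓞 K) α : ℤ) : 𝓞 K)) ^ 2 =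
        (((Algebra.trace ℤ (𝓞 K) α) ^ 2 - 4 * Algebra.norm ℤ α : ℤ) : 𝓞 K) ∧
    ∃ m : ℤ, (Algebra.trace ℤ (𝓞 K) α) ^ 2 - 4 * Algebra.norm ℤ α = m ^ 2 * discr K := by
  have hc : Fintype.card (Module.Free.ChooseBasisIndex ℤ (𝓞 K)) = 2 := by
    rw [← Module.finrank_eq_card_basis (RingOfIntegers.basis K), RingOfIntegers.rank, h2]
  let e : Module.Free.ChooseBasisIndex ℤ (𝓞 K) ≃ Fin 2 := Fintype.equivFinOfCardEq hc
  let b : Module.Basis (Fin 2) ℤ (𝓞 K) := (RingOfIntegers.basis K).reindex e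
  set M := Algebra.leftMulMatrix b α with hM
  set t := Algebra.trace ℤ (𝓞 K) α with ht
  set n := Algebra.norm ℤ α with hn
  have htM : M.trace = t := (Algebra.trace_eq_matrix_trace b α).symm
  have hnM : M.det = n := (Algebra.norm_eq_matrix_det b α).symm
  have hCH : M * M = t • M - n • 1 := Pool.Agent.TH847.LS.ch2 M t n htM hnM
  have hsq : α * α = t • α - n • 1 := by
    apply Algebra.leftMulMatrix_injective b
    rw [map_mul, map_sub, map_zsmul, map_zsmul, map_one]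
    exact hCH
  have hsq' : α * α = (t : 𝓞 K) * α - (n : 𝓞 K) := by
    rw [hsq, zsmul_eq_mul, zsmul_eq_mul, mul_one]
  have htr1 : Algebra.trace ℤ (𝓞 K) 1 = 2 := by
    have := Algebra.trace_algebraMap_of_basis b (1 : ℤ)
    rw [map_one] at this
    rw [this]
    simp
  have htr2 : Algebra.trace ℤ (𝓞 K) (α * α) = t ^ 2 - 2 * n := by
    rw [hsq, map_sub, map_zsmul, map_zsmul, htr1, ← ht, smul_eq_mul, smul_eq_mul]
    ring
  have hd1 : Algebra.discr ℤ (![1, α] : Fin 2 → 𝓞 K) = t ^ 2 - 4 * n := by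
    rw [Algebra.discr_def, Matrix.det_fin_two]
    simp only [Algebra.traceMatrix_apply, Algebra.traceForm_apply, Matrix.cons_val_zero,
      Matrix.cons_val_one, mul_one, one_mul]
    rw [htr1, htr2, ← ht]
    ring
  have hd2 : Algebra.discr ℤ (![1, α] : Fin 2 → 𝓞 K) =
      (b.toMatrix (![1, α] : Fin 2 → 𝓞 K)).det ^ 2 * discr K := by
    have h3 := Algebra.discr_of_matrix_vecMul (A := ℤ) (b : Fin 2 → 𝓞 K)
      (b.toMatrix (![1, α] : Fin 2 → 𝓞 K))
    rw [Module.Basis.toMatrix_map_vecMul] at h3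
    rw [h3, ← NumberField.discr_eq_discr K b]
  have hsq2 : (2 * α - (t : 𝓞 K)) ^ 2 = ((t ^ 2 - 4 * n : ℤ) : 𝓞 K) := by
    push_cast
    linear_combination 4 * hsq'
  exact ⟨hsq2, _, by rw [← hd1, hd2]⟩

/-- if all traces are even then the discriminant is divisible by four -/
theorem four_dvd (h2 : Module.finrank ℚ K = 2)
    (h : ∀ α : 𝓞 K, (2 : ℤ) ∣ Algebra.trace ℤ (𝓞 K) α) : (4 : ℤ) ∣ discr K := by
  have hc : Fintype.card (Module.Free.ChooseBasisIndex ℤ (𝓞 K)) = 2 := by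
    rw [← Module.finrank_eq_card_basis (RingOfIntegers.basis K), RingOfIntegers.rank, h2]
  let e : Module.Free.ChooseBasisIndex ℤ (𝓞 K) ≃ Fin 2 := Fintype.equivFinOfCardEq hc
  let b : Module.Basis (Fin 2) ℤ (𝓞 K) := (RingOfIntegers.basis K).reindex e
  rw [← NumberField.discr_eq_discr K b, Algebra.discr_def, Matrix.det_fin_two]
  simp only [Algebra.traceMatrix_apply, Algebra.traceForm_apply]
  obtain ⟨x, hx⟩ := h (b 0 * b 0)
  obtain ⟨y, hy⟩ := h (b 1 * b 1)
  obtain ⟨z, hz⟩ := h (b 0 * b 1)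
  obtain ⟨w, hw⟩ := h (b 1 * b 0)
  rw [hx, hy, hz, hw]
  exact ⟨x * y - z * w, by ring⟩

/-- no rational number has a negative square -/
theorem no_rat {n : ℕ} (hn : 0 < n) {s : K} (hs : s ^ 2 = -(n : K)) (q : ℚ) : s ≠ (q : K) := by
  intro h
  rw [h] at hs
  have h1 : ((q ^ 2 : ℚ) : K) = ((-(n : ℚ) : ℚ) : K) := by
    push_cast
    exact hs
  have h2 : q ^ 2 = -(n : ℚ) := by exact_mod_cast h1
  have h3 : (0 : ℚ) < n := by exact_mod_cast hn
  nlinarith [sq_nonneg q]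

theorem sq_cases {m a : ℕ} (ha : Squarefree a) (h : m ^ 2 ∣ 4 * a) : m = 1 ∨ m = 2 := by
  rcases Nat.even_or_odd' m with ⟨c, hc | hc⟩
  · right
    subst hc
    have h1 : c ^ 2 ∣ a := by
      have h2 : 4 * c ^ 2 ∣ 4 * a := by
        have e : (2 * c) ^ 2 = 4 * c ^ 2 := by ring
        rwa [e] at h
      exact (Nat.mul_dvd_mul_iff_left (by norm_num)).1 h2
    have h2 := ha c (by rwa [← sq])
    rw [Nat.isUnit_iff] at h2
    rw [h2]
  · left
    have hcop : Nat.Coprime (m ^ 2) 4 := by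
      have h1 : Nat.Coprime m 2 := by
        rw [Nat.coprime_two_right, Nat.odd_iff]
        omega
      have h2 := Nat.Coprime.pow 2 2 h1
      simpa using h2
    have h1 : m ^ 2 ∣ a := hcop.dvd_of_dvd_mul_left h
    have h2 := ha m (by rwa [← sq])
    rwa [Nat.isUnit_iff] at h2

/-- if `(2 α - t)^2` is an integer and `2 α = c + e s` then `e ≠ 0` implies `t = c` -/
theorem trace_eq (h2 : Module.finrank ℚ K = 2) {n : ℕ} (hn : 0 < n) {s : K}
    (hs : s ^ 2 = -(n : K)) (α : 𝓞 K) (c e : ℤ) (he : e ≠ 0)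
    (hα : 2 * (α : K) = (c : K) + e * s) :
    Algebra.trace ℤ (𝓞 K) α = c ∧ ∃ m : ℤ, -(e ^ 2 * n : ℤ) = m ^ 2 * discr K := by
  obtain ⟨h1, m, hm⟩ := quad_eq' h2 α
  set t := Algebra.trace ℤ (𝓞 K) α with ht
  have h3 := congrArg (algebraMap (𝓞 K) K) h1
  rw [map_pow, map_sub, map_mul, map_intCast, map_intCast] at h3
  have h3' : (2 * (α : K) - (t : K)) ^ 2 = (((t ^ 2 - 4 * Algebra.norm ℤ α : ℤ)) : K) := by
    have h4 : (algebraMap (𝓞 K) K) 2 = 2 := map_ofNat _ 2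
    rw [h4] at h3
    exact h3
  rw [hα] at h3'
  have htc : t = c := by
    by_contra hne
    have hce : ((2 * (c - t) * e : ℤ) : K) ≠ 0 := by
      have : (2 * (c - t) * e : ℤ) ≠ 0 := by
        have h5 : c - t ≠ 0 := fun h => hne (by omega)
        positivity
      exact_mod_cast this
    have h5 : ((2 * (c - t) * e : ℤ) : K) * s =
        ((t ^ 2 - 4 * Algebra.norm ℤ α - (c - t) ^ 2 + e ^ 2 * n : ℤ) : K) := by
      push_cast at h3' ⊢
      linear_combination h3' - (e : K) ^ 2 * hs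
    apply no_rat (K := K) hn hs
      (((t ^ 2 - 4 * Algebra.norm ℤ α - (c - t) ^ 2 + e ^ 2 * n : ℤ) : ℚ) /
        ((2 * (c - t) * e : ℤ) : ℚ))
    rw [Rat.cast_div, Rat.cast_intCast, Rat.cast_intCast, eq_div_iff hce, ← h5]
    ring
  refine ⟨htc, m, ?_⟩
  rw [← hm]
  rw [htc] at h3' ⊢
  have h6 : ((-(e ^ 2 * n : ℤ) : ℤ) : K) = ((c ^ 2 - 4 * Algebra.norm ℤ α : ℤ) : K) := by
    rw [← h3']
    push_cast
    linear_combination -(e : K) ^ 2 * hs
  exact_mod_cast h6

theorem int_s {n : ℕ} {s : K} (hs : s ^ 2 = -(n : K)) : IsIntegral ℤ s := by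
  apply IsIntegral.of_pow (n := 2) (by norm_num)
  rw [hs]
  have h : IsIntegral ℤ (((-(n : ℤ)) : ℤ) : K) := isIntegral_algebraMap (x := (-(n : ℤ)))
  simpa using h

theorem int_half {n : ℕ} (h3 : n % 4 = 3) {s : K} (hs : s ^ 2 = -(n : K)) :
    IsIntegral ℤ ((1 + s) / 2) := by
  obtain ⟨k, hk⟩ : ∃ k : ℕ, n + 1 = 4 * k := ⟨(n + 1) / 4, by omega⟩
  refine ⟨X ^ 2 - X + C (k : ℤ), ?_, ?_⟩
  · have : (X ^ 2 - X + C (k : ℤ) : ℤ[X]) = X ^ 2 + (-X + C (k : ℤ)) := by ring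
    rw [this]
    apply monic_X_pow_add
    refine lt_of_le_of_lt (degree_add_le _ _) ?_
    rw [degree_neg, degree_X]
    refine max_lt (by norm_num) (lt_of_le_of_lt degree_C_le (by norm_num))
  · have hk' : (n : K) + 1 = 4 * k := by exact_mod_cast hk
    simp only [eval₂_add, eval₂_sub, eval₂_pow, eval₂_X, eval₂_C]
    have e : (algebraMap ℤ K) (k : ℤ) = (k : K) := by simp
    rw [e]
    have h4 : (4 : K) ≠ 0 := by norm_num
    have h5 : (4 : K) * (((1 + s) / 2) ^ 2 - (1 + s) / 2 + k) = 0 := by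
      linear_combination hs - hk'
    exact (mul_eq_zero.1 h5).resolve_left h4

theorem part1 (h2 : Module.finrank ℚ K = 2) (n : ℕ) (hsf : Squarefree n) (s : K)
    (hs : s ^ 2 = -(n : K)) :
    discr K = if n % 4 = 3 then -(n : ℤ) else -(4 * n : ℤ) := by
  have hn : 0 < n := Nat.pos_of_ne_zero hsf.ne_zero
  have hn4 : n % 4 ≠ 0 := by
    intro h
    have h1 := hsf 2 ⟨n / 4, by omega⟩
    rw [Nat.isUnit_iff] at h1
    omega
  obtain ⟨-, m, hm⟩ := trace_eq h2 hn hs ⟨s, int_s hs⟩ 0 2 (by norm_num) (by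
    show 2 * s = _
    push_cast
    ring)
  have hm2 : m.natAbs ^ 2 ∣ 4 * n := by
    have h1 : m ^ 2 ∣ ((4 * n : ℕ) : ℤ) := ⟨-discr K, by push_cast; linarith⟩
    have h3 := Int.natAbs_dvd_natAbs.2 h1
    rwa [Int.natAbs_pow, Int.natAbs_natCast] at h3
  have hd : discr K = -(4 * n : ℤ) ∨ discr K = -(n : ℤ) := by
    have h1 : m ^ 2 = (m.natAbs : ℤ) ^ 2 := (Int.natAbs_sq m).symm
    rcases sq_cases hsf hm2 with h | h
    · left
      rw [h1, h] at hm
      push_cast at hm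
      linarith
    · right
      rw [h1, h] at hm
      push_cast at hm
      linarith
  by_cases h3 : n % 4 = 3
  · rw [if_pos h3]
    rcases hd with hd | hd
    · exfalso
      obtain ⟨-, m', hm'⟩ := trace_eq h2 hn hs ⟨(1 + s) / 2, int_half h3 hs⟩ 1 1 (by norm_num) (by
        show 2 * ((1 + s) / 2) = _
        push_cast
        ring)
      rw [hd] at hm'
      have h5 : (n : ℤ) * (4 * m' ^ 2 - 1) = 0 := by linarith
      rcases mul_eq_zero.1 h5 with h6 | h6
      · omega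
      · omega
    · exact hd
  · rw [if_neg h3]
    rcases hd with hd | hd
    · exact hd
    · exfalso
      have h4 : (4 : ℤ) ∣ discr K := by
        apply four_dvd h2
        intro α
        obtain ⟨-, m', hm'⟩ := quad_eq' h2 α
        rw [hd] at hm'
        set t := Algebra.trace ℤ (𝓞 K) α
        set N := Algebra.norm ℤ α
        rcases Int.even_or_odd' t with ⟨a, ha | ha⟩
        · exact ⟨a, ha⟩
        · exfalso
          rcases Int.even_or_odd' m' with ⟨c, hc | hc⟩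
          · rw [ha, hc] at hm'
            have : 4 * (a ^ 2 + a - N + c ^ 2 * n) = -1 := by linarith
            omega
          · rw [ha, hc] at hm'
            have h7 : 4 * (a ^ 2 + a - N + (c ^ 2 + c) * n) + 1 + n = 0 := by linarith
            omega
      rw [hd] at h4
      omega

theorem part2 (h2 : Module.finrank ℚ K = 2) (hd : discr K < 0) :
    ∃ n : ℕ, Squarefree n ∧ ∃ s : K, s ^ 2 = -(n : K) := by
  obtain ⟨x, t, m, hm, hx, ht, hts⟩ := Pool.Agent.TH847.LS.exists_sqrt (K := K) h2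
  obtain ⟨a, b, hab, ha⟩ := Nat.sq_mul_squarefree t.natAbs
  have ht0 : t < 0 := by
    rw [ht]
    have : 0 < m ^ 2 := by positivity
    nlinarith
  have hb0 : b ≠ 0 := by
    rintro rfl
    simp at hab
    omega
  refine ⟨a, ha, x / b, ?_⟩
  have hbK : ((b : ℕ) : K) ≠ 0 := Nat.cast_ne_zero.2 hb0
  have h3 : t = -((b ^ 2 * a : ℕ) : ℤ) := by
    rw [hab]
    omega
  rw [div_pow, hx, ← ht, h3]
  push_cast
  field_simp

theorem part3 (n : ℕ) (hsf : Squarefree n) : ∃ (K : Type) (_ : Field K) (_ : NumberField K),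
    Module.finrank ℚ K = 2 ∧ ∃ s : K, s ^ 2 = -(n : K) := by
  have hn : 0 < n := Nat.pos_of_ne_zero hsf.ne_zero
  have hdeg : (X ^ 2 + C (n : ℚ) : ℚ[X]).natDegree = 2 := natDegree_X_pow_add_C
  have hmon : (X ^ 2 + C (n : ℚ) : ℚ[X]).Monic := monic_X_pow_add_C _ (by norm_num)
  have hirr : Irreducible (X ^ 2 + C (n : ℚ) : ℚ[X]) := by
    apply (Monic.irreducible_iff_roots_eq_zero_of_degree_le_three hmon (by omega) (by omega)).2
    apply Multiset.eq_zero_of_forall_notMem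
    intro q hq
    rw [mem_roots hmon.ne_zero, IsRoot.def] at hq
    simp only [eval_add, eval_pow, eval_X, eval_C] at hq
    have : (0 : ℚ) < n := by exact_mod_cast hn
    nlinarith [sq_nonneg q]
  haveI : Fact (Irreducible (X ^ 2 + C (n : ℚ) : ℚ[X])) := ⟨hirr⟩
  haveI hfin : FiniteDimensional ℚ (AdjoinRoot (X ^ 2 + C (n : ℚ) : ℚ[X])) :=
    (AdjoinRoot.powerBasis hmon.ne_zero).finite
  haveI : CharZero (AdjoinRoot (X ^ 2 + C (n : ℚ) : ℚ[X])) :=
    charZero_of_injective_algebraMap (algebraMap ℚ _).injective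
  refine ⟨AdjoinRoot (X ^ 2 + C (n : ℚ) : ℚ[X]), inferInstance, ⟨⟩, ?_, ?_⟩
  · have h := (AdjoinRoot.powerBasis hmon.ne_zero).finrank
    rw [AdjoinRoot.powerBasis_dim, hdeg] at h
    convert h
  · refine ⟨AdjoinRoot.root _, ?_⟩
    have h := AdjoinRoot.eval₂_root (X ^ 2 + C (n : ℚ) : ℚ[X])
    rw [eval₂_add, eval₂_pow, eval₂_X, eval₂_C] at h
    have e : (AdjoinRoot.of (X ^ 2 + C (n : ℚ) : ℚ[X])) (n : ℚ) =
        ((n : ℕ) : AdjoinRoot (X ^ 2 + C (n : ℚ) : ℚ[X])) := map_natCast _ n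
    rw [e] at h
    exact eq_neg_of_add_eq_zero_left h

theorem t_DISC : Pool.Agent.Y755.FK.S_DISC :=
  ⟨fun K _ _ h2 n hsf ⟨s, hs⟩ => part1 h2 n hsf s hs, fun K _ _ h2 hd => part2 h2 hd,
    fun n hsf => part3 n hsf⟩

end Pool.Agent.Y797.FK
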